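import Mathlib
import Pool.Agent.Lib.MP_c7ed95_nt.Center

/-!
# A strong MC number with an MC-circle through exactly five lattice points

The number `n = 11202` is a strong MC number, and the circle with centre `(1/4, 1/4)` and radius
`169 / (2 √2)` is an MC-circle of `n` whose circumference contains exactly five lattice points.
-/

set_option autoImplicit false

namespace Pool.Agent.Results.MP_c7ed95_nt.FivePointCircle

open Pool.Agent.Lib.MP_c7ed95_nt

/-- The lattice points in the interior (the open disk) of the circle with centre `c` and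
radius `r`. -/
def interiorPts (c : ℝ × ℝ) (r : ℝ) : Set (ℤ × ℤ) :=
  {P | ((P.1 : ℝ) - c.1) ^ 2 + ((P.2 : ℝ) - c.2) ^ 2 < r ^ 2}

/-- The lattice points on the circumference of the circle with centre `c` and radius `r`. -/
def boundaryPts (c : ℝ × ℝ) (r : ℝ) : Set (ℤ × ℤ) :=
  {P | ((P.1 : ℝ) - c.1) ^ 2 + ((P.2 : ℝ) - c.2) ^ 2 = r ^ 2}

/-- The circle with centre `c` and radius `r > 0` is `n`-enclosing: exactly `n` lattice points lie
in its interior. -/
def Encloses (n : ℕ) (c : ℝ × ℝ) (r : ℝ) : Prop :=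
  0 < r ∧ (interiorPts c r).encard = (n : ℕ∞)

/-- `R_n`, the supremum of the radii of the `n`-enclosing circles. -/
noncomputable def maxRadius (n : ℕ) : ℝ := sSup {r : ℝ | ∃ c : ℝ × ℝ, Encloses n c r}

/-- `n` is an MC number: some `n`-enclosing circle has radius `R_n`. -/
def IsMC (n : ℕ) : Prop := ∃ c : ℝ × ℝ, Encloses n c (maxRadius n)

/-- The circle with centre `c` and radius `r` is an MC-circle of `n`: it is `n`-enclosing and has
radius `R_n`. -/
def IsMCCircle (n : ℕ) (c : ℝ × ℝ) (r : ℝ) : Prop := Encloses n c r ∧ r = maxRadius n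

/-- `n` is a strong MC number: `n` is an MC number and `n + 1` is not. -/
def IsStrongMC (n : ℕ) : Prop := IsMC n ∧ ¬ IsMC (n + 1)

theorem interiorPts_eq (c : ℝ × ℝ) (r : ℝ) : interiorPts c r = inPts c.1 c.2 (r ^ 2) := rfl

/-- Sanity check: for every `n` the radii of the `n`-enclosing circles are bounded above, so that
`maxRadius n` is a genuine supremum. -/
theorem bddAbove_radii (n : ℕ) : BddAbove {r : ℝ | ∃ c : ℝ × ℝ, Encloses n c r} := by
  refine ⟨n + 3, ?_⟩
  rintro r ⟨c, hr, hc⟩
  by_contra hcon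
  push Not at hcon
  let f : ℕ → ℤ × ℤ := fun k => (⌊c.1⌋ + k, ⌊c.2⌋)
  have hf : Function.Injective f := by
    intro a b hab
    simp only [f, Prod.mk.injEq] at hab
    omega
  have hsub : (↑((Finset.range (n+1)).image f) : Set (ℤ × ℤ)) ⊆ interiorPts c r := by
    intro P hP
    rw [Finset.mem_coe, Finset.mem_image] at hP
    obtain ⟨k, hk, rfl⟩ := hP
    have hk' : (k:ℝ) ≤ n := by
      have := Finset.mem_range.mp hk
      exact_mod_cast Nat.lt_succ_iff.mp this
    have hk0 : (0:ℝ) ≤ k := Nat.cast_nonneg k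
    have a1 := Int.floor_le c.1
    have a2 := Int.lt_floor_add_one c.1
    have b1 := Int.floor_le c.2
    have b2 := Int.lt_floor_add_one c.2
    simp only [interiorPts, Set.mem_ofPred_eq, f]
    push_cast
    have h1 : ((⌊c.1⌋:ℝ) + k - c.1)^2 ≤ (n+1)^2 := by
      apply sq_le_sq'
      · linarith
      · linarith
    have h2 : ((⌊c.2⌋:ℝ) - c.2)^2 ≤ 1 := by
      nlinarith
    have h3 : ((n:ℝ)+3)^2 < r^2 := by
      apply pow_lt_pow_left₀ hcon (by positivity) (by norm_num)
    nlinarith
  have h := Set.encard_le_encard hsub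
  rw [hc, Set.encard_coe_eq_coe_finsetCard, Finset.card_image_of_injective _ hf,
    Finset.card_range] at h
  have : n + 1 ≤ n := by exact_mod_cast h
  omega

theorem R_pos : (0:ℝ) < 169 / (2 * √2) := by positivity

theorem R_sq : ((169:ℝ) / (2 * √2)) ^ 2 = 28561 / 8 := by
  rw [div_pow, mul_pow, Real.sq_sqrt (by norm_num)]
  norm_num

theorem encloses_center : Encloses 11202 (1/4, 1/4) (169 / (2 * √2)) := by
  refine ⟨R_pos, ?_⟩
  rw [interiorPts_eq, R_sq]
  exact encard_center

theorem le_of_encloses {c : ℝ × ℝ} {r : ℝ} (h : Encloses 11202 c r) : r ≤ 169 / (2 * √2) := by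
  by_contra hcon
  push Not at hcon
  have hlt : (28561:ℝ)/8 < r^2 := by
    rw [← R_sq]
    exact pow_lt_pow_left₀ hcon R_pos.le (by norm_num)
  have h2 := h.2
  rw [interiorPts_eq] at h2
  rcases global_main c.1 c.2 (r^2) hlt.le with h3 | ⟨h3, _⟩
  · rw [h2] at h3
    have : (11204:ℕ) ≤ 11202 := by exact_mod_cast h3
    omega
  · exact absurd h3 hlt.ne'

theorem lt_of_encloses_succ {c : ℝ × ℝ} {r : ℝ} (h : Encloses 11203 c r) :
    r < 169 / (2 * √2) := by
  by_contra hcon
  push Not at hcon
  have hle : (28561:ℝ)/8 ≤ r^2 := by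
    rw [← R_sq]
    exact pow_le_pow_left₀ R_pos.le hcon 2
  have h2 := h.2
  rw [interiorPts_eq] at h2
  rcases global_main c.1 c.2 (r^2) hle with h3 | ⟨_, h3⟩
  · rw [h2] at h3
    have : (11204:ℕ) ≤ 11203 := by exact_mod_cast h3
    omega
  · rw [h2] at h3
    have : (11203:ℕ) = 11202 := by exact_mod_cast h3
    omega

theorem maxRadius_eq : maxRadius 11202 = 169 / (2 * √2) := by
  apply IsGreatest.csSup_eq
  constructor
  · exact ⟨(1/4, 1/4), encloses_center⟩
  · rintro r ⟨c, hc⟩
    exact le_of_encloses hc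

theorem encloses_succ (t : ℝ) (ht0 : 0 < t) (ht1 : t ≤ 1/1000) :
    Encloses 11203 (1/4 - t, 1/4 - t) (√(28561/8 - 100*t)) := by
  refine ⟨Real.sqrt_pos.mpr (by linarith), ?_⟩
  rw [interiorPts_eq, Real.sq_sqrt (by linarith)]
  exact near_count t ht0 ht1

theorem maxRadius_succ_eq : maxRadius 11203 = 169 / (2 * √2) := by
  apply IsLUB.csSup_eq
  · constructor
    · rintro r ⟨c, hc⟩
      exact (lt_of_encloses_succ hc).le
    · intro b hb
      have hb' : ∀ t : ℝ, 0 < t → t ≤ 1/1000 → √(28561/8 - 100*t) ≤ b := by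
        intro t h0 h1
        exact hb ⟨_, encloses_succ t h0 h1⟩
      have hb0 : 0 ≤ b := (Real.sqrt_nonneg _).trans (hb' (1/1000) (by norm_num) le_rfl)
      have hsq : (28561:ℝ)/8 ≤ b^2 := by
        by_contra hcon
        push Not at hcon
        obtain ⟨t, ht⟩ : ∃ t : ℝ, t = min (1/1000) ((28561/8 - b^2)/200) := ⟨_, rfl⟩
        have ht0 : 0 < t := by
          rw [ht]; apply lt_min
          · norm_num
          · apply div_pos _ (by norm_num); linarith
        have ht1 : t ≤ 1/1000 := by rw [ht]; exact min_le_left _ _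
        have ht2 : t ≤ (28561/8 - b^2)/200 := by rw [ht]; exact min_le_right _ _
        have h := hb' t ht0 ht1
        have h3 : 28561/8 - 100*t ≤ b^2 := by
          have := (Real.sqrt_le_left hb0).mp h
          exact this
        linarith
      have h4 : ((169:ℝ) / (2 * √2))^2 ≤ b^2 := by rw [R_sq]; exact hsq
      exact (pow_le_pow_iff_left₀ R_pos.le hb0 (by norm_num)).mp h4
  · exact ⟨_, _, encloses_succ (1/1000) (by norm_num) le_rfl⟩

theorem isMC : IsMC 11202 := by
  refine ⟨(1/4, 1/4), ?_⟩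
  rw [maxRadius_eq]
  exact encloses_center

theorem not_isMC_succ : ¬ IsMC 11203 := by
  rintro ⟨c, hc⟩
  rw [maxRadius_succ_eq] at hc
  exact lt_irrefl _ (lt_of_encloses_succ hc)

/-- `11202` is a strong MC number, the circle with centre `(1/4, 1/4)` and radius `169 / (2 √2)`
is an MC-circle of `11202`, and exactly five lattice points lie on its circumference. -/
theorem result :
    IsStrongMC 11202 ∧ IsMCCircle 11202 (1/4, 1/4) (169 / (2 * √2)) ∧
      (boundaryPts (1/4, 1/4) (169 / (2 * √2))).encard = 5 := by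
  refine ⟨⟨isMC, not_isMC_succ⟩, ⟨encloses_center, maxRadius_eq.symm⟩, ?_⟩
  have h : boundaryPts (1/4, 1/4) (169 / (2 * √2)) = ↑five := by
    rw [← onPts_center]
    unfold boundaryPts
    rw [R_sq]
  rw [h, Set.encard_coe_eq_coe_finsetCard, five_card]
  rfl

end Pool.Agent.Results.MP_c7ed95_nt.FivePointCircle
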